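import Pool.Agent.Rein83.FinMain
import Pool.Agent.Rein83.U.Final

/-!
# MP_fcbba5_nt: the smoothed octagon is the worst body for lattice packing

For every convex body `K` of the plane which is symmetric about the origin, the ratio of the area
`V(K)` to the critical determinant `Δ(K)` is at least
`4 (8 - 4 √2 - ln 2) / (2 √2 - 1) = 3.6096...`, and this value is attained (by the smoothed octagon
`Rein83U.Kst`). So `ρ_2` is this number, and the infimum in its definition is a minimum.
-/

set_option autoImplicit false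

namespace Pool.Agent.Results.MP_fcbba5_nt.SmoothedOctagon

/-- `K` is a convex body of the plane (compact, convex, with nonempty interior), symmetric about the
origin. -/
def IsBody (K : Set (ℝ × ℝ)) : Prop :=
  IsCompact K ∧ Convex ℝ K ∧ (interior K).Nonempty ∧ ∀ x ∈ K, -x ∈ K

/-- The area of `K`. -/
noncomputable def area (K : Set (ℝ × ℝ)) : ℝ :=
  (MeasureTheory.volume K).toReal

/-- The determinant of the vectors `a` and `b`; its absolute value is the determinant of the lattice
`ℤ a + ℤ b` if it is not `0`. -/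
def det (a b : ℝ × ℝ) : ℝ := a.1 * b.2 - a.2 * b.1

/-- `a` and `b` are linearly independent, and the lattice `ℤ a + ℤ b` is `K`-admissible: its only
point in the interior of `K` is the origin. -/
def Admissible (K : Set (ℝ × ℝ)) (a b : ℝ × ℝ) : Prop :=
  LinearIndependent ℝ ![a, b] ∧
    ∀ m n : ℤ, (m : ℝ) • a + (n : ℝ) • b ∈ interior K → (m : ℝ) • a + (n : ℝ) • b = 0

/-- The critical determinant `Δ(K)`: the infimum of the determinants of the `K`-admissible
lattices. -/
noncomputable def critDet (K : Set (ℝ × ℝ)) : ℝ :=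
  sInf {d : ℝ | ∃ a b : ℝ × ℝ, Admissible K a b ∧ d = |det a b|}

/-! ### proofs -/

theorem indep_iff (a b : ℝ × ℝ) : LinearIndependent ℝ ![a, b] ↔ det a b ≠ 0 := by
  unfold det
  rw [LinearIndependent.pair_iff]
  constructor
  · intro h h0
    have h1 := h b.2 (-a.2) (by ext <;> simp <;> linarith)
    have h2 := h b.1 (-a.1) (by ext <;> simp <;> linarith)
    have h3 : a.2 = 0 := neg_eq_zero.1 h1.2
    have h4 : a.1 = 0 := neg_eq_zero.1 h2.2
    have h5 := h 1 0 (by ext <;> simp [h3, h4])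
    exact one_ne_zero h5.1
  · intro h s t hst
    have h1 : s * a.1 + t * b.1 = 0 := by simpa using congrArg Prod.fst hst
    have h2 : s * a.2 + t * b.2 = 0 := by simpa using congrArg Prod.snd hst
    constructor
    · have : s * (a.1 * b.2 - a.2 * b.1) = 0 := by linear_combination b.2 * h1 - b.1 * h2
      exact (mul_eq_zero.1 this).resolve_right h
    · have : t * (a.1 * b.2 - a.2 * b.1) = 0 := by linear_combination a.1 * h2 - a.2 * h1
      exact (mul_eq_zero.1 this).resolve_right h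

theorem set_eq (K : Set (ℝ × ℝ)) :
    {d : ℝ | ∃ a b : ℝ × ℝ, Admissible K a b ∧ d = |det a b|} =
      {d : ℝ | ∃ a b : ℝ × ℝ, d = abs (a.1 * b.2 - a.2 * b.1) ∧ d ≠ 0 ∧
          ∀ m n : ℤ, (m ≠ 0 ∨ n ≠ 0) → (m : ℝ) • a + (n : ℝ) • b ∉ interior K} := by
  ext d
  constructor
  · rintro ⟨a, b, ⟨hi, h⟩, rfl⟩
    refine ⟨a, b, rfl, abs_ne_zero.2 ((indep_iff a b).1 hi), fun m n hmn hin => ?_⟩
    have := LinearIndependent.pair_iff.1 hi m n (h m n hin)
    rcases hmn with h' | h'
    · exact h' (by exact_mod_cast this.1)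
    · exact h' (by exact_mod_cast this.2)
  · rintro ⟨a, b, rfl, hd, h⟩
    refine ⟨a, b, ⟨(indep_iff a b).2 (abs_ne_zero.1 hd), fun m n hin => ?_⟩, rfl⟩
    by_cases hmn : m ≠ 0 ∨ n ≠ 0
    · exact absurd hin (h m n hmn)
    · push Not at hmn
      rw [hmn.1, hmn.2]
      simp

theorem critDet_nonneg (K : Set (ℝ × ℝ)) : 0 ≤ critDet K := by
  apply Real.sInf_nonneg
  rintro d ⟨a, b, -, rfl⟩
  exact abs_nonneg _

theorem const_pos : 0 < 4 * (8 - 4 * Real.sqrt 2 - Real.log 2) / (2 * Real.sqrt 2 - 1) := by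
  have h2' : Real.sqrt 2 ≤ 14142136 / 10000000 := by
    rw [Real.sqrt_le_left (by norm_num)]; norm_num
  have h2 : (14142135 / 10000000 : ℝ) ≤ Real.sqrt 2 := by
    apply Real.le_sqrt_of_sq_le; norm_num
  have := Real.log_two_lt_d9
  apply div_pos
  · linarith
  · linarith

theorem ratio_ge {K : Set (ℝ × ℝ)} (hK : IsBody K) :
    4 * (8 - 4 * Real.sqrt 2 - Real.log 2) / (2 * Real.sqrt 2 - 1) ≤ area K / critDet K := by
  refine Rein83.lower.trans (csInf_le ⟨0, ?_⟩ ⟨K, hK.1, hK.2.1, hK.2.2.1, hK.2.2.2, ?_⟩)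
  · rintro r ⟨K, -, -, -, -, rfl⟩
    apply div_nonneg ENNReal.toReal_nonneg
    apply Real.sInf_nonneg
    rintro d ⟨a, b, rfl, -, -⟩
    exact abs_nonneg _
  · rw [critDet, set_eq]
    rfl

theorem critDet_pos {K : Set (ℝ × ℝ)} (hK : IsBody K) : 0 < critDet K := by
  refine lt_of_le_of_ne (critDet_nonneg K) fun h => ?_
  have h1 := ratio_ge hK
  rw [← h, div_zero] at h1
  exact absurd const_pos h1.not_gt

theorem octagon_body : IsBody Rein83U.Kst :=
  ⟨Rein83U.Kst_compact, Rein83U.Kst_convex, ⟨0, mem_interior_iff_mem_nhds.2 Rein83U.Kst_nhds⟩,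
    Rein83U.Kst_neg⟩

theorem octagon_le :
    area Rein83U.Kst / critDet Rein83U.Kst ≤
      4 * (8 - 4 * Real.sqrt 2 - Real.log 2) / (2 * Real.sqrt 2 - 1) := by
  have hs2 := Rein83U.sq2
  have hs0 : 0 < Real.sqrt 2 := by positivity
  have hs : Real.sqrt 2 < 1.4143 := by nlinarith
  have hs' : 1.4142 < Real.sqrt 2 := by nlinarith
  have hlog : Real.log 2 < 0.6931471808 := Real.log_two_lt_d9
  have hnum : 0 ≤ 16 - 8 * Real.sqrt 2 - 2 * Real.log 2 := by linarith
  have hvol : area Rein83U.Kst ≤ 16 - 8 * Real.sqrt 2 - 2 * Real.log 2 := by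
    have := ENNReal.toReal_mono ENNReal.ofReal_ne_top Rein83U.area
    rwa [ENNReal.toReal_ofReal hnum] at this
  have hD := Rein83U.Dst_pos
  have htarget : 4 * (8 - 4 * Real.sqrt 2 - Real.log 2) / (2 * Real.sqrt 2 - 1)
      = (16 - 8 * Real.sqrt 2 - 2 * Real.log 2) / Rein83U.Dst := by
    have h1 : 2 * Real.sqrt 2 - 1 ≠ 0 := by intro h; linarith
    have h2 : Rein83U.Dst ≠ 0 := hD.ne'
    rw [div_eq_div_iff h1 h2]
    unfold Rein83U.Dst
    ring
  have hpos := critDet_pos octagon_body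
  have hlow : Rein83U.Dst ≤ critDet Rein83U.Kst := by
    have hne : {d : ℝ | ∃ a b : ℝ × ℝ, Admissible Rein83U.Kst a b ∧ d = |det a b|}.Nonempty := by
      by_contra h
      rw [Set.not_nonempty_iff_eq_empty] at h
      rw [critDet, h, Real.sInf_empty] at hpos
      exact lt_irrefl _ hpos
    unfold critDet
    apply le_csInf hne
    rw [set_eq]
    rintro d ⟨a, b, rfl, hd, hadm⟩
    refine Rein83U.lattice Rein83U.Kst Rein83U.Kst_compact Rein83U.Kst_convex Rein83U.Kst_nhds
      Rein83U.Kst_neg Rein83U.Dst hD ?_ a b ?_ hadm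
    · intro p hp
      exact Rein83U.hex_of (fun p s h1 h2 h3 h4 => Rein83U.hexArc h1 h2 p h3 h4)
        (fun t h => Rein83U.hexSide h) p hp
    · intro h
      exact hd (by rw [h, abs_zero])
  rw [htarget]
  calc area Rein83U.Kst / critDet Rein83U.Kst
      ≤ (16 - 8 * Real.sqrt 2 - 2 * Real.log 2) / critDet Rein83U.Kst :=
        div_le_div_of_nonneg_right hvol hpos.le
    _ ≤ (16 - 8 * Real.sqrt 2 - 2 * Real.log 2) / Rein83U.Dst :=
        div_le_div_of_nonneg_left hnum hD hlow

/-- The critical determinant of every symmetric convex body of the plane is positive, and the least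
value of the ratio of area to critical determinant is `4 (8 - 4 √2 - ln 2) / (2 √2 - 1)`. -/
theorem result :
    (∀ K : Set (ℝ × ℝ), IsBody K → 0 < critDet K) ∧
      IsLeast {r : ℝ | ∃ K : Set (ℝ × ℝ), IsBody K ∧ r = area K / critDet K}
        (4 * (8 - 4 * Real.sqrt 2 - Real.log 2) / (2 * Real.sqrt 2 - 1)) := by
  refine ⟨fun K hK => critDet_pos hK, ⟨Rein83U.Kst, octagon_body, ?_⟩, ?_⟩
  · exact le_antisymm (ratio_ge octagon_body) octagon_le
  · rintro r ⟨K, hK, rfl⟩
    exact ratio_ge hK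

end Pool.Agent.Results.MP_fcbba5_nt.SmoothedOctagon
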